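import Mathlib

/-!
# Two commuting matrices, one of which has characteristic polynomial `X ^ n - c`
-/

set_option autoImplicit false

namespace Pool.Agent.H91.PC

open Polynomial Matrix

universe u

/-- the matrix of the traces of `F ^ i * C ^ j` -/
def TM {R : Type*} [CommRing R] {n : ℕ} (F C : Matrix (Fin n) (Fin n) R) :
    Matrix (Fin n) (Fin n) R :=
  Matrix.of fun i j => Matrix.trace (F ^ (i : ℕ) * C ^ (j : ℕ))

theorem TM_map {R S : Type*} [CommRing R] [CommRing S] {n : ℕ} (φ : R →+* S)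
    (F C : Matrix (Fin n) (Fin n) R) :
    (TM F C).map φ = TM (F.map φ) (C.map φ) := by
  ext i j
  unfold TM
  rw [Matrix.map_apply, Matrix.of_apply, Matrix.of_apply, ← RingHom.mapMatrix_apply,
    ← RingHom.mapMatrix_apply, ← map_pow, ← map_pow, ← map_mul, RingHom.mapMatrix_apply]
  exact AddMonoidHom.map_trace φ.toAddMonoidHom _

variable {Ω : Type u} [Field Ω]

theorem diag_form {n : ℕ} (F C : Matrix (Fin n) (Fin n) Ω) (hFC : F * C = C * F)
    (α : Fin n → Ω) (hα : Function.Injective α) (hroot : ∀ i, F.charpoly.eval (α i) = 0) :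
    ∃ (g : Matrix (Fin n) (Fin n) Ω) (e : Fin n → Ω), IsUnit g ∧
      F = g * diagonal α * g⁻¹ ∧ C = g * diagonal e * g⁻¹ := by
  have h1 : ∀ i, ∃ v : Fin n → Ω, v ≠ 0 ∧ F *ᵥ v = α i • v := by
    intro i
    have h2 := hroot i
    rw [Matrix.eval_charpoly] at h2
    obtain ⟨v, hv, h3⟩ := Matrix.exists_mulVec_eq_zero_iff.2 h2
    refine ⟨v, hv, ?_⟩
    rw [Matrix.sub_mulVec, sub_eq_zero] at h3
    rw [← h3]
    ext j
    simp [Matrix.scalar_apply, Matrix.mulVec_diagonal]
  choose v hv hFv using h1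
  have hli : LinearIndependent Ω v := by
    refine Module.End.eigenvectors_linearIndependent' (Matrix.mulVecLin F) α hα v ?_
    intro i
    refine ⟨?_, hv i⟩
    rw [Module.End.mem_eigenspace_iff]
    exact hFv i
  obtain ⟨g, hg⟩ : ∃ g : Matrix (Fin n) (Fin n) Ω, g = (Matrix.of v)ᵀ := ⟨_, rfl⟩
  have hgu : IsUnit g := by
    rw [← Matrix.linearIndependent_cols_iff_isUnit]
    rw [hg]
    exact hli
  have hgdet : IsUnit g.det := (Matrix.isUnit_iff_isUnit_det g).1 hgu
  have hFg : F * g = g * diagonal α := by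
    ext i j
    have h2 := congrFun (hFv j) i
    rw [Matrix.mul_diagonal, Matrix.mul_apply]
    rw [hg]
    simp only [Matrix.transpose_apply, Matrix.of_apply]
    rw [Matrix.mulVec, dotProduct] at h2
    rw [h2, Pi.smul_apply, smul_eq_mul, mul_comm]
  have hF : F = g * diagonal α * g⁻¹ := by
    rw [← hFg, Matrix.mul_assoc, Matrix.mul_nonsing_inv _ hgdet, Matrix.mul_one]
  obtain ⟨E, hE⟩ : ∃ E, E = g⁻¹ * C * g := ⟨_, rfl⟩
  have hC : C = g * E * g⁻¹ := by
    rw [hE]
    calc C = (g * g⁻¹) * C * (g * g⁻¹) := by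
          rw [Matrix.mul_nonsing_inv _ hgdet, Matrix.one_mul, Matrix.mul_one]
      _ = g * (g⁻¹ * C * g) * g⁻¹ := by simp only [Matrix.mul_assoc]
  have hDE : diagonal α * E = E * diagonal α := by
    have h3 : diagonal α = g⁻¹ * F * g := by
      rw [Matrix.mul_assoc, hFg, ← Matrix.mul_assoc, Matrix.nonsing_inv_mul _ hgdet,
        Matrix.one_mul]
    rw [h3, hE]
    calc g⁻¹ * F * g * (g⁻¹ * C * g) = g⁻¹ * F * (g * g⁻¹) * C * g := by
          simp only [Matrix.mul_assoc]
      _ = g⁻¹ * (F * C) * g := by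
          rw [Matrix.mul_nonsing_inv _ hgdet, Matrix.mul_one]
          simp only [Matrix.mul_assoc]
      _ = g⁻¹ * C * (g * g⁻¹) * F * g := by
          rw [hFC, Matrix.mul_nonsing_inv _ hgdet, Matrix.mul_one]
          simp only [Matrix.mul_assoc]
      _ = _ := by simp only [Matrix.mul_assoc]
  have hEd : E = diagonal (fun i => E i i) := by
    ext i j
    rcases eq_or_ne i j with rfl | hij
    · rw [diagonal_apply_eq]
    · rw [diagonal_apply_ne _ hij]
      have h4 := congrFun (congrFun hDE i) j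
      rw [Matrix.diagonal_mul, Matrix.mul_diagonal] at h4
      have h5 : (α i - α j) * E i j = 0 := by
        rw [sub_mul, h4, mul_comm, sub_self]
      exact (mul_eq_zero.1 h5).resolve_left (sub_ne_zero.2 (hα.ne hij))
  refine ⟨g, fun i => E i i, hgu, hF, ?_⟩
  rw [← hEd]
  exact hC

theorem conj_pow {n : ℕ} (g D : Matrix (Fin n) (Fin n) Ω) (hg : IsUnit g.det) (k : ℕ) :
    (g * D * g⁻¹) ^ k = g * D ^ k * g⁻¹ := by
  induction k with
  | zero => rw [pow_zero, pow_zero, Matrix.mul_one, Matrix.mul_nonsing_inv _ hg]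
  | succ k ih =>
    rw [pow_succ, ih, pow_succ]
    calc g * D ^ k * g⁻¹ * (g * D * g⁻¹) = g * D ^ k * (g⁻¹ * g) * D * g⁻¹ := by
          simp only [Matrix.mul_assoc]
      _ = _ := by
          rw [Matrix.nonsing_inv_mul _ hg, Matrix.mul_one]
          simp only [Matrix.mul_assoc]

/-- the trace matrix is the product of two Vandermonde matrices -/
theorem TM_eq {n : ℕ} (g : Matrix (Fin n) (Fin n) Ω) (hg : IsUnit g) (a e : Fin n → Ω) :
    TM (g * diagonal a * g⁻¹) (g * diagonal e * g⁻¹) =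
      (vandermonde a)ᵀ * vandermonde e := by
  have hgdet : IsUnit g.det := (Matrix.isUnit_iff_isUnit_det g).1 hg
  ext i j
  unfold TM
  rw [Matrix.of_apply, conj_pow g _ hgdet, conj_pow g _ hgdet, Matrix.mul_apply]
  have h1 : g * diagonal a ^ (i : ℕ) * g⁻¹ * (g * diagonal e ^ (j : ℕ) * g⁻¹) =
      g * (diagonal a ^ (i : ℕ) * diagonal e ^ (j : ℕ)) * g⁻¹ := by
    calc _ = g * diagonal a ^ (i : ℕ) * (g⁻¹ * g) * diagonal e ^ (j : ℕ) * g⁻¹ := by
          simp only [Matrix.mul_assoc]
      _ = _ := by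
          rw [Matrix.nonsing_inv_mul _ hgdet, Matrix.mul_one]
          simp only [Matrix.mul_assoc]
  rw [h1, Matrix.trace_mul_comm, ← Matrix.mul_assoc, Matrix.nonsing_inv_mul _ hgdet,
    Matrix.one_mul, diagonal_pow, diagonal_pow, diagonal_mul_diagonal, trace_diagonal]
  refine Finset.sum_congr rfl fun k _ => ?_
  rw [Matrix.transpose_apply, vandermonde_apply, vandermonde_apply, Pi.pow_apply, Pi.pow_apply]

theorem det_identity {n : ℕ} (F C : Matrix (Fin n) (Fin n) Ω) (hFC : F * C = C * F)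
    (α : Fin n → Ω) (hα : Function.Injective α) (hroot : ∀ i, F.charpoly.eval (α i) = 0) :
    (TM C C).det * (TM F F).det = (TM F C).det ^ 2 := by
  obtain ⟨g, e, hg, hF, hC⟩ := diag_form F C hFC α hα hroot
  rw [hF, hC, TM_eq g hg, TM_eq g hg, TM_eq g hg, det_mul, det_mul, det_mul, det_transpose,
    det_transpose]
  ring

theorem det_TM_pure {n : ℕ} [NeZero n] (hn : n.Prime) (F : Matrix (Fin n) (Fin n) Ω) (c : Ω)
    (hF : F ^ n = Matrix.scalar (Fin n) c)
    (htr : ∀ k, 0 < k → k < n → Matrix.trace (F ^ k) = 0) :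
    ∃ ε : ℤˣ, (TM F F).det = ((ε : ℤ) : Ω) * (n : Ω) ^ n * c ^ (n - 1) := by
  have hn0 : 0 < n := hn.pos
  obtain ⟨val, hval⟩ : ∃ val : Fin n → Ω, val = fun i => if i = 0 then (n : Ω) else n * c :=
    ⟨_, rfl⟩
  have h1 : TM F F = diagonal val * (Equiv.neg (Fin n)).permMatrix Ω := by
    ext i j
    unfold TM
    rw [Matrix.of_apply, ← pow_add, Matrix.diagonal_mul, Equiv.Perm.permMatrix,
      PEquiv.toMatrix_apply, Equiv.toPEquiv_apply]
    simp only [Option.mem_def, Option.some.injEq, Equiv.neg_apply]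
    have hneg : ((-i : Fin n) : ℕ) = (n - (i : ℕ)) % n := Fin.val_neg' i
    have hi := i.2
    have hj := j.2
    by_cases hi0 : i = 0
    · subst hi0
      by_cases hj0 : j = 0
      · subst hj0
        simp [hval]
      · have : (0 : Fin n) ≠ j := fun h => hj0 h.symm
        have hj1 : (j : ℕ) ≠ 0 := fun h => hj0 (Fin.ext (by simpa using h))
        rw [neg_zero, if_neg this, mul_zero]
        have e0 : (((0 : Fin n) : ℕ)) = 0 := by simp
        rw [e0, zero_add]
        exact htr _ (Nat.pos_of_ne_zero hj1) hj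
    · have hi1 : (i : ℕ) ≠ 0 := fun h => hi0 (Fin.ext (by simpa using h))
      have hneg' : ((-i : Fin n) : ℕ) = n - (i : ℕ) := by
        rw [hneg, Nat.mod_eq_of_lt (by omega)]
      by_cases hij : (i : ℕ) + j = n
      · have e1 : -i = j := Fin.ext (by rw [hneg']; omega)
        rw [if_pos e1, mul_one, hij, hF, hval]
        simp [hi0, Matrix.scalar_apply, Matrix.trace_diagonal]
      · have e1 : -i ≠ j := fun h => hij (by rw [← h, hneg']; omega)
        rw [if_neg e1, mul_zero]
        rcases lt_or_gt_of_ne hij with h | h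
        · exact htr _ (by omega) h
        · have e2 : (i : ℕ) + j = n + ((i : ℕ) + j - n) := by omega
          rw [e2, pow_add, hF]
          have h3 := htr ((i : ℕ) + j - n) (by omega) (by omega)
          have h4 : Matrix.scalar (Fin n) c * F ^ ((i : ℕ) + j - n) =
              c • F ^ ((i : ℕ) + j - n) := by
            ext a b
            rw [Matrix.scalar_apply, Matrix.diagonal_mul, Matrix.smul_apply, smul_eq_mul]
          rw [h4, Matrix.trace_smul, h3, smul_zero]
  refine ⟨Equiv.Perm.sign (Equiv.neg (Fin n)), ?_⟩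
  rw [h1, det_mul, det_diagonal, det_permutation]
  have h2 : ∏ i, val i = (n : Ω) ^ n * c ^ (n - 1) := by
    rw [← Finset.mul_prod_erase Finset.univ val (Finset.mem_univ 0)]
    have h3 : ∏ i ∈ Finset.univ.erase (0 : Fin n), val i =
        ∏ i ∈ Finset.univ.erase (0 : Fin n), ((n : Ω) * c) := by
      refine Finset.prod_congr rfl fun i hi => ?_
      rw [hval]
      exact if_neg (Finset.ne_of_mem_erase hi)
    rw [h3, Finset.prod_const, Finset.card_erase_of_mem (Finset.mem_univ _), Finset.card_univ,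
      Fintype.card_fin, hval]
    simp only [if_true]
    rw [mul_pow, ← mul_assoc]
    congr 1
    rw [← pow_succ']
    congr 1
    omega
  rw [h2]
  ring

end Pool.Agent.H91.PC
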