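import Mathlib
import Pool.Agent.H91.PC.Alg

/-!
# The discriminant of a matrix which commutes with a matrix `F` with `F ^ n = c`
-/

set_option autoImplicit false

namespace Pool.Agent.H91.PC

open Polynomial Matrix

universe u

theorem alg_identity {Ω : Type u} [Field Ω] [IsAlgClosed Ω] {n : ℕ} (hn : n.Prime)
    (hnΩ : (n : Ω) ≠ 0) (F D : Matrix (Fin n) (Fin n) Ω) (hFD : F * D = D * F) (c : Ω)
    (hc : c ≠ 0) (hch : F.charpoly = X ^ n - C c) :
    ∃ ε : ℤˣ, (TM D D).det * (((ε : ℤ) : Ω) * (n : Ω) ^ n * c ^ (n - 1)) = (TM F D).det ^ 2 := by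
  have : NeZero n := ⟨hn.ne_zero⟩
  have : NeZero (n : Ω) := ⟨hnΩ⟩
  obtain ⟨β, hβ⟩ := IsAlgClosed.exists_pow_nat_eq c hn.pos
  obtain ⟨ζ, hζ⟩ := HasEnoughRootsOfUnity.exists_primitiveRoot Ω n
  have hβ0 : β ≠ 0 := by
    rintro rfl
    rw [zero_pow hn.ne_zero] at hβ
    exact hc hβ.symm
  obtain ⟨α, hα⟩ : ∃ α : Fin n → Ω, α = fun i : Fin n => β * ζ ^ (i : ℕ) := ⟨_, rfl⟩
  have hinj : Function.Injective α := by
    intro i j h
    rw [hα] at h
    have h1 := mul_left_cancel₀ hβ0 h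
    exact Fin.ext (hζ.pow_inj i.2 j.2 h1)
  have hpow : ∀ i, α i ^ n = c := by
    intro i
    rw [hα]
    change (β * ζ ^ (i : ℕ)) ^ n = c
    rw [mul_pow, hβ, ← pow_mul, mul_comm (i : ℕ) n, pow_mul, hζ.pow_eq_one, one_pow, mul_one]
  have hroot : ∀ i, F.charpoly.eval (α i) = 0 := by
    intro i
    rw [hch, eval_sub, eval_pow, eval_X, eval_C, hpow, sub_self]
  have hFn : F ^ n = Matrix.scalar (Fin n) c := by
    have h2 := Matrix.aeval_self_charpoly F
    rw [hch, map_sub, map_pow, aeval_X, aeval_C, sub_eq_zero] at h2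
    rw [h2]
    rfl
  have htr : ∀ k, 0 < k → k < n → Matrix.trace (F ^ k) = 0 := by
    intro k hk hkn
    obtain ⟨g, e, hg, hF, -⟩ := diag_form F F rfl α hinj hroot
    have hgdet : IsUnit g.det := (Matrix.isUnit_iff_isUnit_det g).1 hg
    rw [hF, conj_pow g _ hgdet, Matrix.trace_mul_comm, ← Matrix.mul_assoc,
      Matrix.nonsing_inv_mul _ hgdet, Matrix.one_mul, diagonal_pow, trace_diagonal]
    have h1 : ∀ i : Fin n, (α ^ k) i = β ^ k * (ζ ^ k) ^ (i : ℕ) := by
      intro i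
      rw [Pi.pow_apply, hα]
      change (β * ζ ^ (i : ℕ)) ^ k = _
      rw [mul_pow, ← pow_mul, ← pow_mul, mul_comm k]
    rw [Finset.sum_congr rfl fun i _ => h1 i, ← Finset.mul_sum,
      Fin.sum_univ_eq_sum_range (fun i => (ζ ^ k) ^ i) n]
    have hcop : k.Coprime n := (Nat.coprime_of_lt_prime hk.ne' hkn hn).symm
    rw [(hζ.pow_of_coprime k hcop).geom_sum_eq_zero hn.one_lt, mul_zero]
  obtain ⟨ε, hε⟩ := det_TM_pure hn F c hFn htr
  refine ⟨ε, ?_⟩
  rw [← hε]
  exact det_identity F D hFD α hinj hroot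

/-- The same identity in a domain. -/
theorem domain_identity {R : Type u} [CommRing R] [IsDomain R] {n : ℕ} (hn : n.Prime)
    (hnR : (n : R) ≠ 0) (F D : Matrix (Fin n) (Fin n) R) (hFD : F * D = D * F) (c : R)
    (hc : c ≠ 0) (hch : F.charpoly = X ^ n - C c) :
    ∃ ε : ℤˣ, (TM D D).det * (((ε : ℤ) : R) * (n : R) ^ n * c ^ (n - 1)) = (TM F D).det ^ 2 := by
  obtain ⟨φ, hφ⟩ : ∃ φ : R →+* AlgebraicClosure (FractionRing R),
    φ = (algebraMap (FractionRing R) (AlgebraicClosure (FractionRing R))).comp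
      (algebraMap R (FractionRing R)) := ⟨_, rfl⟩
  have hinj : Function.Injective φ := by
    rw [hφ]
    exact (algebraMap (FractionRing R) (AlgebraicClosure (FractionRing R))).injective.comp
      (IsFractionRing.injective R (FractionRing R))
  have hmap : ∀ A B : Matrix (Fin n) (Fin n) R, A.map φ * B.map φ = (A * B).map φ := by
    intro A B
    rw [Matrix.map_mul]
  obtain ⟨ε, hε⟩ := alg_identity (Ω := AlgebraicClosure (FractionRing R)) hn (by
      rw [← map_natCast φ]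
      exact (map_ne_zero_iff φ hinj).2 hnR) (F.map φ) (D.map φ)
      (by rw [hmap, hmap, hFD]) (φ c) ((map_ne_zero_iff φ hinj).2 hc) (by
        rw [Matrix.charpoly_map, hch, Polynomial.map_sub, Polynomial.map_pow, Polynomial.map_X,
          Polynomial.map_C])
  refine ⟨ε, hinj ?_⟩
  rw [← TM_map, ← TM_map, ← RingHom.mapMatrix_apply, ← RingHom.mapMatrix_apply,
    ← RingHom.map_det, ← RingHom.map_det] at hε
  rw [map_mul, map_mul, map_mul, map_pow, map_pow, map_pow, map_natCast, map_intCast]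
  exact hε

/-- In an integrally closed domain the discriminant is a constant times a square. -/
theorem square_form {R : Type u} [CommRing R] [IsDomain R] [IsIntegrallyClosed R] {n : ℕ}
    (hn : n.Prime) (hn2 : n ≠ 2)
    (hnR : (n : R) ≠ 0) (F D : Matrix (Fin n) (Fin n) R) (hFD : F * D = D * F) (c : R)
    (hc : c ≠ 0) (hch : F.charpoly = X ^ n - C c) :
    ∃ (ε : ℤˣ) (w : R), (TM D D).det * (((ε : ℤ) : R) * (n : R) ^ n) = w ^ 2 := by
  obtain ⟨ε, hε⟩ := domain_identity hn hnR F D hFD c hc hch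
  obtain ⟨m, hm⟩ : ∃ m, n - 1 = 2 * m := by
    have h1 := hn.eq_two_or_odd
    exact ⟨(n - 1) / 2, by omega⟩
  rw [hm, pow_mul, pow_right_comm, ← mul_assoc] at hε
  have hdvd : (c ^ m) ^ 2 ∣ (TM F D).det ^ 2 := ⟨_, by rw [← hε, mul_comm]⟩
  rw [IsIntegrallyClosed.pow_dvd_pow_iff two_ne_zero] at hdvd
  obtain ⟨w, hw⟩ := hdvd
  refine ⟨ε, w, ?_⟩
  rw [hw, mul_pow, mul_comm ((c ^ m) ^ 2)] at hε
  exact mul_right_cancel₀ (pow_ne_zero 2 (pow_ne_zero m hc)) hε

end Pool.Agent.H91.PC
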