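import Mathlib

/-!
# Derivations of the free algebra and polynomial identities of matrices
-/

set_option autoImplicit false

namespace Pool.Agent.H91.PC

open Polynomial

universe u v

variable {K : Type u} [Field K] {σ : Type v} {n : ℕ}

/-- a derivation of the free algebra -/
def IsDer (D : FreeAlgebra K σ →ₗ[K] FreeAlgebra K σ) : Prop :=
  ∀ a b, D (a * b) = a * D b + D a * b

/-- `g` vanishes on all matrices -/
def Van (n : ℕ) (g : FreeAlgebra K σ) : Prop :=
  ∀ X : σ → Matrix (Fin n) (Fin n) K, FreeAlgebra.lift K X g = 0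

theorem IsDer.algebraMap {D : FreeAlgebra K σ →ₗ[K] FreeAlgebra K σ} (h : IsDer D) (r : K) :
    D (algebraMap K _ r) = 0 := by
  have h1 := h 1 1
  rw [mul_one, one_mul, mul_one] at h1
  have h2 : D 1 = 0 := by
    have h3 : D 1 + 0 = D 1 + D 1 := by rw [add_zero]; exact h1
    exact (add_left_cancel h3).symm
  rw [Algebra.algebraMap_eq_smul_one, map_smul, h2, smul_zero]

theorem IsDer.ext {D E : FreeAlgebra K σ →ₗ[K] FreeAlgebra K σ} (hD : IsDer D) (hE : IsDer E)
    (h : ∀ i, D (FreeAlgebra.ι K i) = E (FreeAlgebra.ι K i)) : D = E := by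
  ext f
  induction f using FreeAlgebra.induction with
  | grade0 r => rw [hD.algebraMap, hE.algebraMap]
  | grade1 i => exact h i
  | mul a b ha hb => rw [hD, hE, ha, hb]
  | add a b ha hb => rw [map_add, map_add, ha, hb]

theorem IsDer.bracket {D E : FreeAlgebra K σ →ₗ[K] FreeAlgebra K σ} (hD : IsDer D)
    (hE : IsDer E) : IsDer (D ∘ₗ E - E ∘ₗ D) := by
  intro a b
  simp only [LinearMap.sub_apply, LinearMap.comp_apply]
  rw [hD, hE, map_add, map_add, hD, hD, hE, hE]
  noncomm_ring

theorem IsDer.sub {D E : FreeAlgebra K σ →ₗ[K] FreeAlgebra K σ} (hD : IsDer D)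
    (hE : IsDer E) : IsDer (D - E) := by
  intro a b
  simp only [LinearMap.sub_apply]
  rw [hD, hE]
  noncomm_ring

theorem IsDer.smul {D : FreeAlgebra K σ →ₗ[K] FreeAlgebra K σ} (hD : IsDer D) (c : K) :
    IsDer (c • D) := by
  intro a b
  simp only [LinearMap.smul_apply]
  rw [hD, smul_add, mul_smul_comm, smul_mul_assoc]

/-- the inner derivation `g ↦ g c - c g` -/
noncomputable def inner (c : FreeAlgebra K σ) : FreeAlgebra K σ →ₗ[K] FreeAlgebra K σ :=
  LinearMap.mulRight K c - LinearMap.mulLeft K c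

theorem inner_apply (c g : FreeAlgebra K σ) : inner c g = g * c - c * g := rfl

theorem inner_isDer (c : FreeAlgebra K σ) : IsDer (inner c) := by
  intro a b
  rw [inner_apply, inner_apply, inner_apply]
  noncomm_ring

/-- the homomorphism to triangular `2 × 2` matrices -/
noncomputable def tri (d : σ → FreeAlgebra K σ) :
    FreeAlgebra K σ →ₐ[K] Matrix (Fin 2) (Fin 2) (FreeAlgebra K σ) :=
  FreeAlgebra.lift K (fun i => !![FreeAlgebra.ι K i, d i; 0, FreeAlgebra.ι K i])

theorem tri_eq (d : σ → FreeAlgebra K σ) (f : FreeAlgebra K σ) :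
    tri d f = !![f, tri d f 0 1; 0, f] := by
  induction f using FreeAlgebra.induction with
  | grade0 r =>
    rw [AlgHom.commutes]
    ext i j
    fin_cases i <;> fin_cases j <;> simp [Matrix.algebraMap_matrix_apply]
  | grade1 i =>
    unfold tri
    rw [FreeAlgebra.lift_ι_apply]
    ext i j
    fin_cases i <;> fin_cases j <;> simp
  | mul a b ha hb =>
    rw [map_mul, ha, hb]
    ext i j
    fin_cases i <;> fin_cases j <;> simp [Matrix.mul_apply, Fin.sum_univ_two]
  | add a b ha hb =>
    rw [map_add, ha, hb]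
    ext i j
    fin_cases i <;> fin_cases j <;> simp

/-- the derivation with given values on the variables -/
noncomputable def der (d : σ → FreeAlgebra K σ) : FreeAlgebra K σ →ₗ[K] FreeAlgebra K σ where
  toFun f := tri d f 0 1
  map_add' f g := by rw [map_add]; rfl
  map_smul' c f := by rw [map_smul]; rfl

theorem der_ι (d : σ → FreeAlgebra K σ) (i : σ) : der d (FreeAlgebra.ι K i) = d i := by
  change tri d (FreeAlgebra.ι K i) 0 1 = d i
  unfold tri
  rw [FreeAlgebra.lift_ι_apply]
  rfl

theorem der_isDer (d : σ → FreeAlgebra K σ) : IsDer (der d) := by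
  intro a b
  change tri d (a * b) 0 1 = a * tri d b 0 1 + tri d a 0 1 * b
  rw [map_mul, tri_eq d a, tri_eq d b]
  simp [Matrix.mul_apply, Fin.sum_univ_two]

/-- values at the points of a line -/
noncomputable def Ev (X D : σ → Matrix (Fin n) (Fin n) K) :
    FreeAlgebra K σ →ₐ[K] Matrix (Fin n) (Fin n) K[X] :=
  FreeAlgebra.lift K (fun i => (X i).map C + (Polynomial.X : K[X]) • (D i).map C)

theorem Ev_eval (X D : σ → Matrix (Fin n) (Fin n) K) (t : K) (f : FreeAlgebra K σ) :
    (Ev X D f).map (eval t) = FreeAlgebra.lift K (fun i => X i + t • D i) f := by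
  have e : ((aeval t : K[X] →ₐ[K] K).mapMatrix).comp (Ev X D) =
      FreeAlgebra.lift K (fun i => X i + t • D i) := by
    apply FreeAlgebra.hom_ext
    funext i
    ext a b
    simp [Ev]
    exact mul_comm _ _
  have h := DFunLike.congr_fun e f
  rw [← h]
  ext a b
  simp

theorem Ev_zero (X D : σ → Matrix (Fin n) (Fin n) K) (f : FreeAlgebra K σ) :
    (Ev X D f).map (fun p => p.coeff 0) = FreeAlgebra.lift K X f := by
  have h := Ev_eval X D 0 f
  have e : (fun i => X i + (0 : K) • D i) = X := by
    funext i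
    rw [zero_smul, add_zero]
  rw [e] at h
  rw [← h]
  ext a b
  simp [coeff_zero_eq_eval_zero]

theorem Ev_one (X : σ → Matrix (Fin n) (Fin n) K) (d : σ → FreeAlgebra K σ)
    (f : FreeAlgebra K σ) :
    (Ev X (fun i => FreeAlgebra.lift K X (d i)) f).map (fun p => p.coeff 1) =
      FreeAlgebra.lift K X (der d f) := by
  induction f using FreeAlgebra.induction with
  | grade0 r =>
    rw [(der_isDer d).algebraMap, AlgHom.commutes, map_zero]
    ext a b
    rw [Matrix.map_apply, Matrix.algebraMap_matrix_apply, Matrix.zero_apply]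
    split_ifs
    · rw [Polynomial.algebraMap_apply, Algebra.algebraMap_self, RingHom.id_apply, coeff_C,
        if_neg one_ne_zero]
    · rw [coeff_zero]
  | grade1 i =>
    rw [der_ι]
    unfold Ev
    rw [FreeAlgebra.lift_ι_apply]
    ext a b
    simp
  | mul a b ha hb =>
    rw [der_isDer d, map_mul, map_add, map_mul, map_mul, ← ha, ← hb,
      ← Ev_zero X (fun i => FreeAlgebra.lift K X (d i)) a,
      ← Ev_zero X (fun i => FreeAlgebra.lift K X (d i)) b]
    ext i j
    simp only [Matrix.map_apply, Matrix.mul_apply, Matrix.add_apply, finsetSum_coeff,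
      mul_coeff_one, Finset.sum_add_distrib]
  | add a b ha hb =>
    rw [map_add, map_add, map_add, ← ha, ← hb]
    ext i j
    simp

theorem poly_zero [Infinite K] (P : Matrix (Fin n) (Fin n) K[X])
    (h : ∀ t : K, P.map (eval t) = 0) : P = 0 := by
  ext i j : 1
  rw [Matrix.zero_apply]
  apply Polynomial.funext
  intro t
  have h1 := congrFun (congrFun (h t) i) j
  rw [Matrix.map_apply, Matrix.zero_apply] at h1
  rw [h1, eval_zero]

theorem Van.der [Infinite K] {g : FreeAlgebra K σ} (hg : Van n g)
    {D : FreeAlgebra K σ →ₗ[K] FreeAlgebra K σ} (hD : IsDer D) : Van n (D g) := by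
  intro X
  have e : D = Pool.Agent.H91.PC.der (fun i => D (FreeAlgebra.ι K i)) :=
    hD.ext (der_isDer _) (fun i => (der_ι (fun i => D (FreeAlgebra.ι K i)) i).symm)
  rw [e, ← Ev_one]
  rw [poly_zero (Ev X _ g) (fun t => by rw [Ev_eval]; exact hg _)]
  ext i j
  simp

theorem van_of_inv [Infinite K] {f : FreeAlgebra K σ} (d : σ → FreeAlgebra K σ)
    (h : ∀ (X : σ → Matrix (Fin n) (Fin n) K) (t : K),
      FreeAlgebra.lift K (fun i => X i + t • FreeAlgebra.lift K X (d i)) f =
        FreeAlgebra.lift K X f) : Van n (der d f) := by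
  intro X
  rw [← Ev_one]
  have h1 : Ev X (fun i => FreeAlgebra.lift K X (d i)) f - (FreeAlgebra.lift K X f).map C = 0 := by
    apply poly_zero
    intro t
    ext i j
    have h2 := congrFun (congrFun (Ev_eval X (fun i => FreeAlgebra.lift K X (d i)) t f) i) j
    rw [h X t, Matrix.map_apply] at h2
    simp [h2]
  rw [sub_eq_zero] at h1
  rw [h1]
  ext i j
  simp

end Pool.Agent.H91.PC
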