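import Mathlib
import Pool.Agent.H91.PC.Der

/-!
# A polynomial which is invariant under `x ↦ x + s y` and `y ↦ y + s x ^ 2` commutes with `[x, y]`
-/

set_option autoImplicit false

namespace Pool.Agent.H91.PC

open Polynomial

universe u

variable {K : Type u} [Field K] {n : ℕ}

theorem Van.bracket [Infinite K] {σ : Type*} {f : FreeAlgebra K σ}
    {D E : FreeAlgebra K σ →ₗ[K] FreeAlgebra K σ} (hD : IsDer D) (hE : IsDer E)
    (h1 : Van n (D f)) (h2 : Van n (E f)) : Van n ((D ∘ₗ E - E ∘ₗ D) f) := by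
  intro X
  rw [LinearMap.sub_apply, LinearMap.comp_apply, LinearMap.comp_apply, map_sub,
    Van.der h2 hD X, Van.der h1 hE X, sub_zero]

/-- the derivations of the proof -/
theorem brackets {A : Type*} [Ring A] [Algebra K A] (D : A →ₗ[K] A) (E : A →ₗ[K] A)
    (hD : ∀ a b, D (a * b) = a * D b + D a * b) (hE : ∀ a b, E (a * b) = a * E b + E a * b)
    (x y : A) (hDx : D x = y) (hDy : D y = 0) (hEx : E x = 0) (hEy : E y = x * x)
    (E2 E3 E4 U V : A →ₗ[K] A) (h2 : E2 = D ∘ₗ E - E ∘ₗ D) (h3 : E3 = D ∘ₗ E2 - E2 ∘ₗ D)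
    (h4 : E4 = D ∘ₗ E3 - E3 ∘ₗ D) (hU : U = E ∘ₗ E4 - E4 ∘ₗ E) (hV : V = E2 ∘ₗ E3 - E3 ∘ₗ E2)
    (h2' : ∀ a b, E2 (a * b) = a * E2 b + E2 a * b)
    (h3' : ∀ a b, E3 (a * b) = a * E3 b + E3 a * b)
    (h4' : ∀ a b, E4 (a * b) = a * E4 b + E4 a * b) :
    (V - U) x = (4 : K) • (x * (x * y - y * x) - (x * y - y * x) * x) ∧
    (V - U) y = (4 : K) • (y * (x * y - y * x) - (x * y - y * x) * y) := by
  have e4 : ∀ a : A, (4 : K) • a = a + a + a + a := by
    intro a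
    rw [show (4 : K) = 1 + 1 + 1 + 1 by norm_num, add_smul, add_smul, add_smul, one_smul]
  have e2x : E2 x = - (x * x) := by
    rw [h2, LinearMap.sub_apply, LinearMap.comp_apply, LinearMap.comp_apply, hEx, hDx, hEy,
      map_zero, zero_sub]
  have e2y : E2 y = x * y + y * x := by
    rw [h2, LinearMap.sub_apply, LinearMap.comp_apply, LinearMap.comp_apply, hEy, hDy, hD, hDx,
      map_zero, sub_zero]
  have e3x : E3 x = - (x * y + y * x) - (x * y + y * x) := by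
    rw [h3, LinearMap.sub_apply, LinearMap.comp_apply, LinearMap.comp_apply, e2x, hDx, e2y,
      map_neg, hD, hDx]
  have e3y : E3 y = y * y + y * y := by
    rw [h3, LinearMap.sub_apply, LinearMap.comp_apply, LinearMap.comp_apply, e2y, hDy,
      map_zero, sub_zero, map_add, hD, hD, hDx, hDy]
    noncomm_ring
  have e4x : E4 x = - (y * y + y * y + y * y + y * y + y * y + y * y) := by
    rw [h4, LinearMap.sub_apply, LinearMap.comp_apply, LinearMap.comp_apply, e3x, hDx, e3y]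
    simp only [map_sub, map_neg, map_add, hD, hDx, hDy]
    noncomm_ring
  have e4y : E4 y = 0 := by
    rw [h4, LinearMap.sub_apply, LinearMap.comp_apply, LinearMap.comp_apply, e3y, hDy]
    simp only [map_add, hD, hDy, map_zero]
    noncomm_ring
  constructor
  · rw [LinearMap.sub_apply, hU, hV]
    simp only [LinearMap.sub_apply, LinearMap.comp_apply]
    rw [hEx, e4x, e2x, e3x]
    simp only [map_sub, map_neg, map_add, hE, h2', h3', h4', hEx, hEy, e2x, e2y, e3x, e3y,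
      map_zero, e4]
    noncomm_ring
  · rw [LinearMap.sub_apply, hU, hV]
    simp only [LinearMap.sub_apply, LinearMap.comp_apply]
    rw [hEy, e4y, e2y, e3y]
    simp only [map_sub, map_neg, map_add, hE, h2', h3', h4', hEx, hEy, e2x, e2y, e3x, e3y, e4x,
      map_zero, e4]
    noncomm_ring

theorem comm_of_inv [Infinite K] (h2 : (2 : K) ≠ 0) (f : FreeAlgebra K (Fin 2))
    (ha : ∀ (X Y : Matrix (Fin n) (Fin n) K) (s : K),
      FreeAlgebra.lift K ![X + s • Y, Y] f = FreeAlgebra.lift K ![X, Y] f)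
    (hb : ∀ (X Y : Matrix (Fin n) (Fin n) K) (s : K),
      FreeAlgebra.lift K ![X, Y + s • X ^ 2] f = FreeAlgebra.lift K ![X, Y] f)
    (X Y : Matrix (Fin n) (Fin n) K) :
    Commute (FreeAlgebra.lift K ![X, Y] f) (X * Y - Y * X) := by
  obtain ⟨x, hx⟩ : ∃ x, x = (FreeAlgebra.ι K (0 : Fin 2) : FreeAlgebra K (Fin 2)) := ⟨_, rfl⟩
  obtain ⟨y, hy⟩ : ∃ y, y = (FreeAlgebra.ι K (1 : Fin 2) : FreeAlgebra K (Fin 2)) := ⟨_, rfl⟩
  obtain ⟨D, hDd⟩ : ∃ D, D = der (K := K) ![y, 0] := ⟨_, rfl⟩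
  obtain ⟨E, hEd⟩ : ∃ E, E = der (K := K) ![0, x * x] := ⟨_, rfl⟩
  have hD : IsDer D := hDd ▸ der_isDer _
  have hE : IsDer E := hEd ▸ der_isDer _
  have hDx : D x = y := by rw [hDd, hx, der_ι]; rfl
  have hDy : D y = 0 := by
    have : (![y, 0] : Fin 2 → FreeAlgebra K (Fin 2)) 1 = 0 := rfl
    rw [hDd]
    nth_rewrite 2 [hy]
    rw [der_ι, this]
  have hEx : E x = 0 := by
    have : (![0, x * x] : Fin 2 → FreeAlgebra K (Fin 2)) 0 = 0 := rfl
    rw [hEd]
    nth_rewrite 3 [hx]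
    rw [der_ι, this]
  have hEy : E y = x * x := by rw [hEd, hy, der_ι]; rfl
  obtain ⟨E2, h2d⟩ : ∃ E2, E2 = D ∘ₗ E - E ∘ₗ D := ⟨_, rfl⟩
  obtain ⟨E3, h3d⟩ : ∃ E3, E3 = D ∘ₗ E2 - E2 ∘ₗ D := ⟨_, rfl⟩
  obtain ⟨E4, h4d⟩ : ∃ E4, E4 = D ∘ₗ E3 - E3 ∘ₗ D := ⟨_, rfl⟩
  obtain ⟨U, hUd⟩ : ∃ U, U = E ∘ₗ E4 - E4 ∘ₗ E := ⟨_, rfl⟩
  obtain ⟨V, hVd⟩ : ∃ V, V = E2 ∘ₗ E3 - E3 ∘ₗ E2 := ⟨_, rfl⟩
  have g2 : IsDer E2 := h2d ▸ hD.bracket hE
  have g3 : IsDer E3 := h3d ▸ hD.bracket g2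
  have g4 : IsDer E4 := h4d ▸ hD.bracket g3
  have gU : IsDer U := hUd ▸ hE.bracket g4
  have gV : IsDer V := hVd ▸ g2.bracket g3
  have key := brackets D E hD hE x y hDx hDy hEx hEy E2 E3 E4 U V h2d h3d h4d hUd hVd g2 g3 g4
  have hVU : V - U = (4 : K) • inner (x * y - y * x) := by
    refine (gV.sub gU).ext ((inner_isDer _).smul _) ?_
    intro i
    rw [LinearMap.smul_apply, inner_apply]
    fin_cases i
    · have := key.1
      rw [hx] at this ⊢
      exact this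
    · have := key.2
      rw [hy] at this ⊢
      exact this
  have eta : ∀ Z : Fin 2 → Matrix (Fin n) (Fin n) K, Z = ![Z 0, Z 1] := by
    intro Z
    funext i
    fin_cases i <;> rfl
  have vD : Van n (D f) := by
    rw [hDd]
    apply van_of_inv
    intro Z t
    have h := ha (Z 0) (Z 1) t
    rw [← eta Z] at h
    rw [← h]
    congr 2
    funext i
    fin_cases i
    · simp [hy]
    · simp
  have vE : Van n (E f) := by
    rw [hEd]
    apply van_of_inv
    intro Z t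
    have h := hb (Z 0) (Z 1) t
    rw [← eta Z] at h
    rw [← h]
    congr 2
    funext i
    fin_cases i
    · simp
    · simp [hx, sq]
  have v2 : Van n (E2 f) := h2d ▸ Van.bracket hD hE vD vE
  have v3 : Van n (E3 f) := h3d ▸ Van.bracket hD g2 vD v2
  have v4 : Van n (E4 f) := h4d ▸ Van.bracket hD g3 vD v3
  have vU : Van n (U f) := hUd ▸ Van.bracket hE g4 vE v4
  have vV : Van n (V f) := hVd ▸ Van.bracket g2 g3 v2 v3
  have hfin : FreeAlgebra.lift K ![X, Y] ((4 : K) • inner (x * y - y * x) f) = 0 := by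
    rw [← LinearMap.smul_apply, ← hVU, LinearMap.sub_apply, map_sub, vU, vV, sub_zero]
  rw [map_smul, inner_apply, map_sub, map_mul, map_mul] at hfin
  have h4 : (4 : K) ≠ 0 := by
    have : (4 : K) = 2 * 2 := by norm_num
    rw [this]
    exact mul_ne_zero h2 h2
  have h5 := (smul_eq_zero.1 hfin).resolve_left h4
  have h6 : FreeAlgebra.lift K ![X, Y] (x * y - y * x) = X * Y - Y * X := by
    rw [hx, hy, map_sub, map_mul, map_mul, FreeAlgebra.lift_ι_apply, FreeAlgebra.lift_ι_apply]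
    rfl
  rw [h6, sub_eq_zero] at h5
  exact h5

end Pool.Agent.H91.PC
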