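import Mathlib
import Pool.Agent.H91.PC.Alg2

/-!
# A commutator with prescribed characteristic polynomial
-/

set_option autoImplicit false

namespace Pool.Agent.H91.PC

open Polynomial Matrix

universe u

/-- companion matrix -/
def comp {S : Type*} [CommRing S] (n : ℕ) (q : S[X]) : Matrix (Fin n) (Fin n) S :=
  Matrix.of fun i j => if (i : ℕ) + 1 = n then - q.coeff j else if (j : ℕ) = i + 1 then 1 else 0

theorem comp_map {S T : Type*} [CommRing S] [CommRing T] (n : ℕ) (q : S[X]) (φ : S →+* T) :
    (comp n q).map φ = comp n (q.map φ) := by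
  ext i j
  unfold comp
  rw [Matrix.map_apply, Matrix.of_apply, Matrix.of_apply]
  split_ifs
  · rw [map_neg, coeff_map]
  · rw [map_one]
  · rw [map_zero]

theorem comp_vandermonde {S : Type*} [CommRing S] (n : ℕ) (v : Fin n → S) :
    comp n (∏ i, (X - C (v i))) * (vandermonde v)ᵀ = (vandermonde v)ᵀ * diagonal v := by
  obtain ⟨q, hq⟩ : ∃ q : S[X], q = ∏ i, (X - C (v i)) := ⟨_, rfl⟩
  rw [← hq]
  ext i j
  rw [Matrix.mul_diagonal, Matrix.transpose_apply, vandermonde_apply, Matrix.mul_apply]
  simp only [Matrix.transpose_apply, vandermonde_apply]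
  unfold comp
  simp only [Matrix.of_apply]
  by_cases hi : (i : ℕ) + 1 = n
  · simp only [hi, if_true]
    rcases subsingleton_or_nontrivial S with hS | hS
    · exact Subsingleton.elim _ _
    have hmon : q.Monic := hq ▸ monic_prod_of_monic _ _ (fun i _ => monic_X_sub_C _)
    have hdeg : q.natDegree = n := by
      rw [hq, natDegree_prod_of_monic _ _ (fun i _ => monic_X_sub_C _)]
      simp
    have hroot : q.eval (v j) = 0 := by
      rw [hq, eval_prod]
      apply Finset.prod_eq_zero (Finset.mem_univ j)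
      rw [eval_sub, eval_X, eval_C, sub_self]
    rw [eval_eq_sum_range, hdeg, Finset.sum_range_succ] at hroot
    have hlead : q.coeff n = 1 := by
      rw [← hdeg]
      exact hmon.coeff_natDegree
    rw [hlead, one_mul, ← Fin.sum_univ_eq_sum_range (fun k => q.coeff k * v j ^ k)] at hroot
    have h1 : ∑ x : Fin n, -q.coeff (x : ℕ) * v j ^ (x : ℕ) = v j ^ n := by
      simp only [neg_mul, Finset.sum_neg_distrib]
      exact neg_eq_of_add_eq_zero_right hroot
    rw [h1, ← pow_succ, hi]
  · simp only [hi, if_false]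
    have hlt : (i : ℕ) + 1 < n := by
      have := i.2
      omega
    rw [Finset.sum_eq_single ⟨(i : ℕ) + 1, hlt⟩]
    · rw [if_pos rfl, one_mul, pow_succ]
    · intro b _ hb
      rw [if_neg (fun h => hb (Fin.ext h)), zero_mul]
    · intro h
      exact absurd (Finset.mem_univ _) h

theorem TM_comp {S : Type u} [CommRing S] [IsDomain S] (n : ℕ) (v : Fin n → S)
    (hv : (vandermonde v).det ≠ 0) :
    (TM (comp n (∏ i, (X - C (v i)))) (comp n (∏ i, (X - C (v i))))).det =
      (vandermonde v).det ^ 2 := by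
  obtain ⟨A, hA⟩ : ∃ A, A = comp n (∏ i, (X - C (v i))) := ⟨_, rfl⟩
  obtain ⟨φ, hφ⟩ : ∃ φ : S →+* FractionRing S, φ = algebraMap S (FractionRing S) := ⟨_, rfl⟩
  have hinj : Function.Injective φ := by
    rw [hφ]
    exact IsFractionRing.injective S (FractionRing S)
  have h1 := comp_vandermonde n v
  rw [← hA] at h1 ⊢
  obtain ⟨g, hg⟩ : ∃ g, g = ((vandermonde v)ᵀ).map φ := ⟨_, rfl⟩
  have hgdet : IsUnit g.det := by
    rw [isUnit_iff_ne_zero, hg, ← RingHom.mapMatrix_apply, ← RingHom.map_det, det_transpose]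
    exact (map_ne_zero_iff φ hinj).2 hv
  have hgu : IsUnit g := (Matrix.isUnit_iff_isUnit_det g).2 hgdet
  have h2 : A.map φ * g = g * diagonal (fun i => φ (v i)) := by
    have h3 := congrArg (fun M : Matrix (Fin n) (Fin n) S => M.map φ) h1
    simp only [Matrix.map_mul] at h3
    rw [hg, h3, Matrix.diagonal_map (map_zero φ)]
  have h4 : A.map φ = g * diagonal (fun i => φ (v i)) * g⁻¹ := by
    rw [← h2, Matrix.mul_assoc, Matrix.mul_nonsing_inv _ hgdet, Matrix.mul_one]
  apply hinj
  rw [RingHom.map_det, RingHom.mapMatrix_apply, TM_map, h4, TM_eq g hgu, det_mul, det_transpose,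
    map_pow, RingHom.map_det, RingHom.mapMatrix_apply]
  have h5 : (vandermonde v).map φ = vandermonde (fun i => φ (v i)) := by
    ext i j
    rw [Matrix.map_apply, vandermonde_apply, vandermonde_apply, map_pow]
  rw [h5, sq]

end Pool.Agent.H91.PC
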