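import Mathlib
import Pool.Agent.H91.PC.Fam

/-!
# The family of commutators whose discriminant has odd degree
-/

set_option autoImplicit false

namespace Pool.Agent.H91.PC

open Polynomial Matrix

universe u

variable {K : Type u} [Field K]

/-- the eigenvalues `m + r`, `m - r`, `d_1`, ..., `d_k` -/
noncomputable def lam {k : ℕ} (m : K) (d : Fin k → K) : Fin (k + 2) → K[X] :=
  Fin.cons (X + C m) (Fin.cons (-X + C m) (fun j => C (d j)))

theorem lam_zero {k : ℕ} (m : K) (d : Fin k → K) : lam m d 0 = X + C m := rfl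

theorem lam_one {k : ℕ} (m : K) (d : Fin k → K) : lam m d (Fin.succ 0) = -X + C m := rfl

theorem lam_succ {k : ℕ} (m : K) (d : Fin k → K) (j : Fin k) :
    lam m d j.succ.succ = C (d j) := rfl

theorem det_lam {k : ℕ} (h2 : (2 : K) ≠ 0) (m : K) (d : Fin k → K)
    (hd : Function.Injective d) :
    (vandermonde (lam m d)).det ≠ 0 ∧ (vandermonde (lam m d)).det.natDegree = 2 * k + 1 := by
  have h1 : (vandermonde (lam m d)).det =
      ((-X + C m) - (X + C m)) * (∏ j : Fin k, (C (d j) - (X + C m))) *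
        (∏ j : Fin k, (C (d j) - (-X + C m))) *
        ∏ i : Fin k, ∏ j ∈ Finset.Ioi i, (C (d j) - C (d i)) := by
    rw [det_vandermonde, Fin.prod_univ_succ, Fin.prod_univ_succ, Fin.prod_Ioi_zero,
      Fin.prod_univ_succ, Fin.prod_Ioi_succ, Fin.prod_Ioi_zero]
    simp only [Fin.prod_Ioi_succ, lam_zero, lam_one, lam_succ]
    ring
  have e1 : ((-X + C m) - (X + C m) : K[X]) = C (-2) * X := by
    rw [map_neg, map_ofNat]
    ring
  have hd1 : ((-X + C m) - (X + C m) : K[X]).natDegree = 1 ∧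
      ((-X + C m) - (X + C m) : K[X]) ≠ 0 := by
    rw [e1]
    refine ⟨natDegree_C_mul_X _ (neg_ne_zero.2 h2), ?_⟩
    exact mul_ne_zero (C_ne_zero.2 (neg_ne_zero.2 h2)) X_ne_zero
  have hd2 : ∀ j : Fin k, (C (d j) - (X + C m) : K[X]).natDegree = 1 := by
    intro j
    have e : (C (d j) - (X + C m) : K[X]) = C (-1) * X + C (d j - m) := by
      rw [map_neg, map_one, map_sub]
      ring
    rw [e]
    exact natDegree_linear (neg_ne_zero.2 one_ne_zero)
  have hd3 : ∀ j : Fin k, (C (d j) - (-X + C m) : K[X]).natDegree = 1 := by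
    intro j
    have e : (C (d j) - (-X + C m) : K[X]) = C 1 * X + C (d j - m) := by
      rw [map_one, map_sub]
      ring
    rw [e]
    exact natDegree_linear one_ne_zero
  have hne : ∀ p : K[X], p.natDegree = 1 → p ≠ 0 := by
    rintro p hp rfl
    rw [natDegree_zero] at hp
    exact zero_ne_one hp
  have hd4 : (∏ i : Fin k, ∏ j ∈ Finset.Ioi i, (C (d j) - C (d i)) : K[X]) =
      C (∏ i : Fin k, ∏ j ∈ Finset.Ioi i, (d j - d i)) := by
    simp only [map_prod, map_sub]
  have hd5 : (∏ i : Fin k, ∏ j ∈ Finset.Ioi i, (d j - d i)) ≠ 0 := by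
    refine Finset.prod_ne_zero_iff.2 fun i _ => Finset.prod_ne_zero_iff.2 fun j hj => ?_
    exact sub_ne_zero.2 (hd.ne (Finset.mem_Ioi.1 hj).ne')
  have p2 : (∏ j : Fin k, (C (d j) - (X + C m)) : K[X]) ≠ 0 :=
    Finset.prod_ne_zero_iff.2 fun j _ => hne _ (hd2 j)
  have p3 : (∏ j : Fin k, (C (d j) - (-X + C m)) : K[X]) ≠ 0 :=
    Finset.prod_ne_zero_iff.2 fun j _ => hne _ (hd3 j)
  have p4 : (∏ i : Fin k, ∏ j ∈ Finset.Ioi i, (C (d j) - C (d i)) : K[X]) ≠ 0 := by
    rw [hd4]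
    exact C_ne_zero.2 hd5
  rw [h1]
  refine ⟨mul_ne_zero (mul_ne_zero (mul_ne_zero hd1.2 p2) p3) p4, ?_⟩
  rw [natDegree_mul (mul_ne_zero (mul_ne_zero hd1.2 p2) p3) p4,
    natDegree_mul (mul_ne_zero hd1.2 p2) p3, natDegree_mul hd1.2 p2, hd1.1,
    natDegree_prod _ _ (fun j _ => hne _ (hd2 j)), natDegree_prod _ _ (fun j _ => hne _ (hd3 j)),
    hd4, natDegree_C]
  simp only [hd2, hd3, Finset.sum_const, Finset.card_univ, Fintype.card_fin, smul_eq_mul, mul_one]
  ring

/-- the polynomial `((T - m) ^ 2 - s) ∏ (T - d_j)` over `K[s]` -/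
noncomputable def qpol {k : ℕ} (m : K) (d : Fin k → K) : K[X][X] :=
  ((X - C (C m)) ^ 2 - C X) * ∏ j : Fin k, (X - C (C (d j)))

theorem qpol_map {k : ℕ} (m : K) (d : Fin k → K) :
    (qpol m d).map ((expand K 2 : K[X] →ₐ[K] K[X]) : K[X] →+* K[X]) =
      ∏ i, (X - C (lam m d i)) := by
  rw [Fin.prod_univ_succ, Fin.prod_univ_succ]
  simp only [lam_zero, lam_one, lam_succ]
  unfold qpol
  rw [Polynomial.map_mul, Polynomial.map_prod, ← mul_assoc]
  congr 1
  · simp only [Polynomial.map_sub, Polynomial.map_pow, Polynomial.map_X, Polynomial.map_C,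
      RingHom.coe_coe, expand_C, expand_X]
    simp only [map_add, map_neg, map_pow]
    ring
  · refine Finset.prod_congr rfl fun j _ => ?_
    simp only [Polynomial.map_sub, Polynomial.map_X, Polynomial.map_C, RingHom.coe_coe, expand_C]

theorem qpol_coeff {k : ℕ} (h2 : (2 : K) ≠ 0) (d : Fin k → K) :
    (qpol (-(∑ j, d j) / 2) d).coeff (k + 1) = 0 := by
  obtain ⟨m, hm⟩ : ∃ m : K, m = -(∑ j, d j) / 2 := ⟨_, rfl⟩
  rw [← hm]
  have hinj : Function.Injective ((expand K 2 : K[X] →ₐ[K] K[X]) : K[X] →+* K[X]) :=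
    expand_injective two_pos
  apply hinj
  rw [← coeff_map, qpol_map, map_zero]
  have h1 := prod_X_sub_C_coeff_card_pred (Finset.univ : Finset (Fin (k + 2))) (lam m d)
    (by simp)
  rw [Finset.card_univ, Fintype.card_fin, show k + 2 - 1 = k + 1 from rfl] at h1
  rw [h1, Fin.sum_univ_succ, Fin.sum_univ_succ]
  simp only [lam_zero, lam_one, lam_succ]
  rw [← map_sum]
  have h3 : m + m + ∑ j, d j = 0 := by
    rw [hm]
    field_simp
    ring
  have h4 : (X + C m + (-X + C m + C (∑ j, d j)) : K[X]) = C (m + m + ∑ j, d j) := by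
    rw [map_add, map_add]
    ring
  rw [h4, h3, map_zero, neg_zero]

end Pool.Agent.H91.PC
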