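import Mathlib
import Pool.Agent.H91.PC.Fam2

/-!
# Polynomials with pure values do not commute with `[x, y]`
-/

set_option autoImplicit false

namespace Pool.Agent.H91.PC

open Polynomial Matrix

universe u

variable {K : Type u} [Field K]

/-- a commutator of matrices over `K[s]` with characteristic polynomial `qpol` -/
theorem exists_family [Infinite K] (h2 : (2 : K) ≠ 0) (k : ℕ) :
    ∃ (Xs Ys : Matrix (Fin (k + 2)) (Fin (k + 2)) K[X]) (d : Fin k → K),
      Function.Injective d ∧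
      Xs * Ys - Ys * Xs = comp (k + 2) (qpol (-(∑ j, d j) / 2) d) := by
  obtain ⟨a, ha⟩ : ∃ a : ℕ → K, Function.Injective a := ⟨Infinite.natEmbedding K, (Infinite.natEmbedding K).injective⟩
  obtain ⟨d, hd⟩ : ∃ d : Fin k → K, d = fun j : Fin k => a j := ⟨_, rfl⟩
  have hdi : Function.Injective d := by
    intro i j h
    rw [hd] at h
    exact Fin.ext (ha h)
  obtain ⟨y, hy⟩ : ∃ y : Fin (k + 2) → K, y = fun j : Fin (k + 2) => a j := ⟨_, rfl⟩
  have hyi : Function.Injective y := by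
    intro i j h
    rw [hy] at h
    exact Fin.ext (ha h)
  obtain ⟨A, hA⟩ : ∃ A, A = comp (k + 2) (qpol (-(∑ j, d j) / 2) d) := ⟨_, rfl⟩
  have hdiag : ∀ i, A i i = 0 := by
    intro i
    rw [hA]
    unfold comp
    rw [Matrix.of_apply]
    by_cases hi : (i : ℕ) + 1 = k + 2
    · rw [if_pos hi, show (i : ℕ) = k + 1 by omega, qpol_coeff h2, neg_zero]
    · rw [if_neg hi, if_neg (by omega)]
  refine ⟨Matrix.of fun i j => A i j * C ((y j - y i)⁻¹), diagonal fun i => C (y i), d, hdi, ?_⟩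
  rw [← hA]
  ext i j : 1
  rw [Matrix.sub_apply, Matrix.mul_diagonal, Matrix.diagonal_mul, Matrix.of_apply]
  rcases eq_or_ne i j with rfl | hij
  · rw [hdiag]
    ring
  · have h1 : y j - y i ≠ 0 := sub_ne_zero.2 (hyi.ne hij.symm)
    have h3 : C ((y j - y i)⁻¹) * (C (y j) - C (y i)) = (1 : K[X]) := by
      rw [← map_sub, ← map_mul, inv_mul_cancel₀ h1, map_one]
    calc A i j * C ((y j - y i)⁻¹) * C (y j) - C (y i) * (A i j * C ((y j - y i)⁻¹))
        = A i j * (C ((y j - y i)⁻¹) * (C (y j) - C (y i))) := by ring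
      _ = A i j := by rw [h3, mul_one]

/-- the polynomial ring of the generic matrices -/
abbrev RR (K : Type u) [Field K] (n : ℕ) : Type u := MvPolynomial (Fin 2 × Fin n × Fin n) K

/-- generic matrices -/
noncomputable def gm (K : Type u) [Field K] (n : ℕ) (i : Fin 2) :
    Matrix (Fin n) (Fin n) (RR K n) :=
  Matrix.of fun a b => MvPolynomial.X (i, a, b)

/-- evaluation at a point -/
noncomputable def evp {S : Type*} [CommRing S] [Algebra K S] {n : ℕ}
    (p : Fin 2 → Matrix (Fin n) (Fin n) S) : RR K n →ₐ[K] S :=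
  MvPolynomial.aeval fun t => p t.1 t.2.1 t.2.2

theorem gm_map {S : Type*} [CommRing S] [Algebra K S] {n : ℕ}
    (p : Fin 2 → Matrix (Fin n) (Fin n) S) (i : Fin 2) : (gm K n i).map (evp p) = p i := by
  ext a b
  unfold gm evp
  rw [Matrix.map_apply, Matrix.of_apply, MvPolynomial.aeval_X]

theorem lift_map {S : Type*} [CommRing S] [Algebra K S] {n : ℕ}
    (p : Fin 2 → Matrix (Fin n) (Fin n) S) (f : FreeAlgebra K (Fin 2)) :
    (FreeAlgebra.lift K (gm K n) f).map (evp p) = FreeAlgebra.lift K p f := by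
  have e : ((evp p).mapMatrix).comp (FreeAlgebra.lift K (gm K n)) = FreeAlgebra.lift K p := by
    apply FreeAlgebra.hom_ext
    funext i
    simp only [AlgHom.coe_comp, Function.comp_apply, FreeAlgebra.lift_ι_apply,
      AlgHom.mapMatrix_apply]
    exact gm_map p i
  exact DFunLike.congr_fun e f

theorem eq_zero_of_evp [Infinite K] {n : ℕ} (r : RR K n)
    (h : ∀ p : Fin 2 → Matrix (Fin n) (Fin n) K, evp p r = 0) : r = 0 := by
  apply MvPolynomial.funext
  intro x
  rw [map_zero]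
  have h1 := h (fun i => Matrix.of fun a b => x (i, a, b))
  unfold evp at h1
  rw [MvPolynomial.aeval_eq_eval] at h1
  exact h1

/-- **Main step.** -/
theorem not_commute [Infinite K] (h2 : (2 : K) ≠ 0) {n : ℕ} (hn : n.Prime) (hn2 : n ≠ 2)
    (hnK : (n : K) ≠ 0) (f : FreeAlgebra K (Fin 2))
    (hpure : ∀ p : Fin 2 → Matrix (Fin n) (Fin n) K, ∃ c : K,
      (FreeAlgebra.lift K p f).charpoly = X ^ n - C c)
    (hnil : ∃ p : Fin 2 → Matrix (Fin n) (Fin n) K, FreeAlgebra.lift K p f ^ n ≠ 0)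
    (hcomm : ∀ Y Z : Matrix (Fin n) (Fin n) K,
      Commute (FreeAlgebra.lift K ![Y, Z] f) (Y * Z - Z * Y)) : False := by
  have : NeZero n := ⟨hn.ne_zero⟩
  obtain ⟨F, hF⟩ : ∃ F, F = FreeAlgebra.lift K (gm K n) f := ⟨_, rfl⟩
  obtain ⟨D, hD⟩ : ∃ D, D = gm K n 0 * gm K n 1 - gm K n 1 * gm K n 0 := ⟨_, rfl⟩
  have hFp : ∀ (S : Type u) [CommRing S] [Algebra K S] (p : Fin 2 → Matrix (Fin n) (Fin n) S),
      F.map (evp p) = FreeAlgebra.lift K p f := by
    intro S _ _ p
    rw [hF, lift_map]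
  have hDp : ∀ (S : Type u) [CommRing S] [Algebra K S] (p : Fin 2 → Matrix (Fin n) (Fin n) S),
      D.map (evp p) = p 0 * p 1 - p 1 * p 0 := by
    intro S _ _ p
    rw [hD, ← AlgHom.mapMatrix_apply, map_sub, map_mul, map_mul]
    simp only [AlgHom.mapMatrix_apply, gm_map]
  have hFD : F * D = D * F := by
    ext a b : 1
    rw [← sub_eq_zero]
    apply eq_zero_of_evp
    intro p
    have h1 : (F * D - D * F).map (evp p) = 0 := by
      rw [← AlgHom.mapMatrix_apply, map_sub, map_mul, map_mul]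
      simp only [AlgHom.mapMatrix_apply, hFp, hDp]
      have h3 := hcomm (p 0) (p 1)
      have h4 : (![p 0, p 1] : Fin 2 → Matrix (Fin n) (Fin n) K) = p := by
        funext i
        fin_cases i <;> rfl
      rw [h4] at h3
      rw [h3.eq, sub_self]
    have h5 := congrFun (congrFun h1 a) b
    rw [Matrix.map_apply, Matrix.sub_apply, Matrix.zero_apply] at h5
    exact h5
  obtain ⟨c, hc⟩ : ∃ c : RR K n, c = - F.charpoly.coeff 0 := ⟨_, rfl⟩
  have hcp : ∀ p : Fin 2 → Matrix (Fin n) (Fin n) K,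
      (FreeAlgebra.lift K p f).charpoly = X ^ n - C (evp p c) := by
    intro p
    obtain ⟨c0, h0⟩ := hpure p
    rw [h0]
    congr 2
    have h1 : (FreeAlgebra.lift K p f).charpoly.coeff 0 = evp p (F.charpoly.coeff 0) := by
      rw [← hFp K p]
      have h3 := Matrix.charpoly_map F ((evp p : RR K n →ₐ[K] K) : RR K n →+* K)
      have h4 : F.map (((evp p : RR K n →ₐ[K] K) : RR K n →+* K)) = F.map (evp p) := rfl
      rw [h4] at h3
      rw [h3, coeff_map]
      rfl
    rw [h0, coeff_sub, coeff_X_pow, if_neg hn.ne_zero.symm, coeff_C_zero, zero_sub] at h1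
    rw [hc, map_neg, ← h1, neg_neg]
  have hch : F.charpoly = X ^ n - C c := by
    ext k : 1
    rw [← sub_eq_zero]
    apply eq_zero_of_evp
    intro p
    have h3 := Matrix.charpoly_map F ((evp p : RR K n →ₐ[K] K) : RR K n →+* K)
    have h4 : F.map (((evp p : RR K n →ₐ[K] K) : RR K n →+* K)) = F.map (evp p) := rfl
    rw [h4, hFp K p, hcp p] at h3
    have h5 := congrArg (fun q => q.coeff k) h3
    simp only [coeff_map, coeff_sub, coeff_X_pow, coeff_C] at h5
    rw [map_sub, coeff_sub, map_sub, coeff_X_pow, coeff_C]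
    have h6 : evp p (F.charpoly.coeff k) =
        ((evp p : RR K n →ₐ[K] K) : RR K n →+* K) (F.charpoly.coeff k) := rfl
    rw [h6, ← h5]
    split_ifs <;> simp
  have hc0 : c ≠ 0 := by
    intro h0
    obtain ⟨p, hp⟩ := hnil
    apply hp
    have h3 := Matrix.aeval_self_charpoly (FreeAlgebra.lift K p f)
    rw [hcp p, h0, map_zero, map_zero, sub_zero, map_pow, aeval_X] at h3
    exact h3
  have hnR : ((n : ℕ) : RR K n) ≠ 0 := by
    intro h
    have h3 : MvPolynomial.C (n : K) = (0 : RR K n) := by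
      rw [map_natCast]
      exact h
    rw [MvPolynomial.C_eq_zero] at h3
    exact hnK h3
  obtain ⟨ε, w, hw⟩ := square_form hn hn2 hnR F D hFD c hc0 hch
  -- the family
  obtain ⟨k, rfl⟩ : ∃ k, n = k + 2 := ⟨n - 2, by have := hn.two_le; omega⟩
  obtain ⟨Xs, Ys, d, hd, hXY⟩ := exists_family (K := K) h2 k
  obtain ⟨m, hm⟩ : ∃ m : K, m = -(∑ j, d j) / 2 := ⟨_, rfl⟩
  rw [← hm] at hXY
  have h3 := congrArg (evp (K := K) ![Xs, Ys]) hw
  rw [map_mul, map_pow, map_mul, map_pow, map_natCast, map_intCast] at h3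
  have h4 : evp (K := K) ![Xs, Ys] (TM D D).det =
      (TM (comp (k + 2) (qpol m d)) (comp (k + 2) (qpol m d))).det := by
    have h5 : evp (K := K) ![Xs, Ys] (TM D D).det =
      ((evp (K := K) ![Xs, Ys] : RR K (k + 2) →ₐ[K] K[X]) : RR K (k + 2) →+* K[X]) (TM D D).det :=
      rfl
    rw [h5, RingHom.map_det, RingHom.mapMatrix_apply, TM_map]
    have h6 : D.map ((evp (K := K) ![Xs, Ys] : RR K (k + 2) →ₐ[K] K[X]) :
        RR K (k + 2) →+* K[X]) = comp (k + 2) (qpol m d) := by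
      rw [← hXY]
      exact hDp K[X] ![Xs, Ys]
    rw [h6]
  rw [h4] at h3
  have h5 := congrArg ((expand K 2 : K[X] →ₐ[K] K[X]) : K[X] →+* K[X]) h3
  rw [map_mul, map_pow, map_mul, map_pow, map_natCast, map_intCast, RingHom.map_det,
    RingHom.mapMatrix_apply, TM_map, comp_map, qpol_map, TM_comp _ _ (det_lam h2 m d hd).1] at h5
  have h6 : ((((ε : ℤ) : K[X])) * ((k + 2 : ℕ) : K[X]) ^ (k + 2)) =
      C (((ε : ℤ) : K) * ((k + 2 : ℕ) : K) ^ (k + 2)) := by
    rw [map_mul, map_pow, map_natCast, map_intCast]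
  have hε : ((ε : ℤ) : K) ≠ 0 := by
    rcases Int.units_eq_one_or ε with rfl | rfl <;> simp
  have h7 : (((ε : ℤ) : K) * ((k + 2 : ℕ) : K) ^ (k + 2)) ≠ 0 :=
    mul_ne_zero hε (pow_ne_zero _ hnK)
  rw [h6] at h5
  have h8 := congrArg natDegree h5
  rw [natDegree_mul_C h7, natDegree_pow, natDegree_pow, (det_lam h2 m d hd).2, RingHom.coe_coe,
    natDegree_expand] at h8
  omega

end Pool.Agent.H91.PC
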