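import Mathlib
import Pool.Agent.H91.PC.Comm

/-!
# The polynomials `h` such that `f` is invariant under `y ↦ y + h(x)`
-/

set_option autoImplicit false

namespace Pool.Agent.H91.PC

open Polynomial

universe u

variable {K : Type u} [Field K]

theorem coeff_mem [Infinite K] {M : Type*} [AddCommGroup M] [Module K M] (W : Submodule K M)
    (m : ℕ → M) (N : ℕ) (h : ∀ α : K, α ≠ 0 → ∑ i ∈ Finset.range N, α ^ i • m i ∈ W)
    (i : ℕ) (hi : i < N) : m i ∈ W := by
  rw [← Submodule.Quotient.mk_eq_zero, ← Module.forall_dual_apply_eq_zero_iff K]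
  intro φ
  obtain ⟨P, hP⟩ : ∃ P : K[X], P = ∑ j ∈ Finset.range N,
    C (φ (Submodule.Quotient.mk (m j))) * X ^ j := ⟨_, rfl⟩
  have h0 : P = 0 := by
    apply eq_zero_of_infinite_isRoot
    refine Set.Infinite.mono (s := {t : K | t ≠ 0}) ?_ ?_
    · intro t ht
      change P.eval t = 0
      have h1 := h t ht
      rw [← Submodule.Quotient.mk_eq_zero, ← Submodule.mkQ_apply, map_sum] at h1
      have h2 := congrArg φ h1
      rw [map_sum, map_zero] at h2
      rw [hP, eval_finsetSum, ← h2]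
      refine Finset.sum_congr rfl fun j _ => ?_
      rw [eval_mul, eval_C, eval_pow, eval_X, map_smul, map_smul, smul_eq_mul, mul_comm]
      rfl
    · have : {t : K | t ≠ 0} = ({0} : Set K)ᶜ := by
        ext t
        simp
      rw [this]
      exact (Set.finite_singleton 0).infinite_compl
  have h1 : P.coeff i = φ (Submodule.Quotient.mk (m i)) := by
    rw [hP, finsetSum_coeff]
    simp only [coeff_C_mul, coeff_X_pow]
    rw [Finset.sum_eq_single i]
    · rw [if_pos rfl, mul_one]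
    · intro j _ hj
      rw [if_neg hj.symm, mul_zero]
    · intro hni
      exact absurd (Finset.mem_range.2 hi) hni
  rw [← h1, h0, coeff_zero]

/-- the shifts which do not change `f` -/
noncomputable def shifts {n : ℕ} (f : FreeAlgebra K (Fin 2)) (b : ℕ)
    (hb : ∀ (Y Z : Matrix (Fin n) (Fin n) K) (β : K), β ≠ 0 →
      FreeAlgebra.lift K ![Y, β • Z] f = β ^ b • FreeAlgebra.lift K ![Y, Z] f) :
    Submodule K K[X] where
  carrier := {h | ∀ Y Z : Matrix (Fin n) (Fin n) K,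
    FreeAlgebra.lift K ![Y, Z + aeval Y h] f = FreeAlgebra.lift K ![Y, Z] f}
  zero_mem' := by
    intro Y Z
    rw [map_zero, add_zero]
  add_mem' := by
    intro h g hh hg Y Z
    rw [map_add, ← add_assoc, hg, hh]
  smul_mem' := by
    intro β h hh Y Z
    rcases eq_or_ne β 0 with rfl | hβ
    · rw [zero_smul, map_zero, add_zero]
    · have e : Z + aeval Y (β • h) = β • (β⁻¹ • Z + aeval Y h) := by
        rw [smul_add, smul_smul, mul_inv_cancel₀ hβ, one_smul, map_smul]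
      rw [e, hb _ _ _ hβ, hh, ← hb _ _ _ hβ, smul_smul, mul_inv_cancel₀ hβ, one_smul]

theorem mem_shifts {n : ℕ} (f : FreeAlgebra K (Fin 2)) (b : ℕ)
    (hb : ∀ (Y Z : Matrix (Fin n) (Fin n) K) (β : K), β ≠ 0 →
      FreeAlgebra.lift K ![Y, β • Z] f = β ^ b • FreeAlgebra.lift K ![Y, Z] f) (h : K[X]) :
    h ∈ shifts f b hb ↔ ∀ Y Z : Matrix (Fin n) (Fin n) K,
      FreeAlgebra.lift K ![Y, Z + aeval Y h] f = FreeAlgebra.lift K ![Y, Z] f := Iff.rfl

theorem monomial_mem [Infinite K] {n : ℕ} (f : FreeAlgebra K (Fin 2)) (a b : ℕ)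
    (ha : ∀ (Y Z : Matrix (Fin n) (Fin n) K) (α : K), α ≠ 0 →
      FreeAlgebra.lift K ![α • Y, Z] f = α ^ a • FreeAlgebra.lift K ![Y, Z] f)
    (hb : ∀ (Y Z : Matrix (Fin n) (Fin n) K) (β : K), β ≠ 0 →
      FreeAlgebra.lift K ![Y, β • Z] f = β ^ b • FreeAlgebra.lift K ![Y, Z] f)
    (h : K[X]) (hh : h ∈ shifts f b hb) (i : ℕ) (hi : h.coeff i ≠ 0) :
    X ^ i ∈ shifts f b hb := by
  have h1 : ∀ α : K, α ≠ 0 → ∑ j ∈ Finset.range (h.natDegree + 1),
      α ^ j • (C (h.coeff j) * X ^ j) ∈ shifts f b hb := by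
    intro α hα
    rw [mem_shifts]
    intro Y Z
    have e : aeval Y (∑ j ∈ Finset.range (h.natDegree + 1), α ^ j • (C (h.coeff j) * X ^ j)) =
        aeval (α • Y) h := by
      rw [aeval_eq_sum_range (α • Y), map_sum]
      refine Finset.sum_congr rfl fun j _ => ?_
      rw [map_smul, map_mul, aeval_C, map_pow, aeval_X, _root_.smul_pow, smul_comm,
        ← Algebra.smul_def]
    rw [e]
    have e1 : ∀ W : Matrix (Fin n) (Fin n) K, FreeAlgebra.lift K ![Y, W] f =
        α⁻¹ ^ a • FreeAlgebra.lift K ![α • Y, W] f := by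
      intro W
      rw [ha _ _ _ hα, smul_smul, ← mul_pow, inv_mul_cancel₀ hα, one_pow, one_smul]
    rw [e1, e1 Z]
    congr 1
    exact hh (α • Y) Z
  have hin : i < h.natDegree + 1 := by
    have := le_natDegree_of_ne_zero hi
    omega
  have h2 := coeff_mem (shifts f b hb) (fun j => C (h.coeff j) * X ^ j) _ h1 i hin
  have h3 := (shifts f b hb).smul_mem (h.coeff i)⁻¹ h2
  have e : (h.coeff i)⁻¹ • (C (h.coeff i) * X ^ i) = (X ^ i : K[X]) := by
    rw [smul_eq_C_mul, ← mul_assoc, ← map_mul, inv_mul_cancel₀ hi, map_one, one_mul]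
  rw [e] at h3
  exact h3

theorem square_mem [Infinite K] {n : ℕ} (f : FreeAlgebra K (Fin 2)) (b : ℕ)
    (ht : ∀ (Y Z : Matrix (Fin n) (Fin n) K) (c : K),
      FreeAlgebra.lift K ![Y + Matrix.scalar (Fin n) c, Z] f = FreeAlgebra.lift K ![Y, Z] f)
    (hb : ∀ (Y Z : Matrix (Fin n) (Fin n) K) (β : K), β ≠ 0 →
      FreeAlgebra.lift K ![Y, β • Z] f = β ^ b • FreeAlgebra.lift K ![Y, Z] f)
    (i : ℕ) (hi : 2 ≤ i) (hc : ((i.choose 2 : ℕ) : K) ≠ 0) (hX : X ^ i ∈ shifts f b hb) :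
    X ^ 2 ∈ shifts f b hb := by
  have h1 : ∀ c : K, c ≠ 0 → ∑ j ∈ Finset.range (i + 1),
      c ^ j • (C (((i.choose j : ℕ) : K)) * X ^ (i - j)) ∈ shifts f b hb := by
    intro c _
    rw [mem_shifts]
    intro Y Z
    have e : aeval Y (∑ j ∈ Finset.range (i + 1), c ^ j • (C (((i.choose j : ℕ) : K)) *
        X ^ (i - j))) = aeval (Y + Matrix.scalar (Fin n) c) (X ^ i : K[X]) := by
      have e1 : ∑ j ∈ Finset.range (i + 1), c ^ j • (C (((i.choose j : ℕ) : K)) *
          X ^ (i - j)) = (C c + X : K[X]) ^ i := by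
        rw [add_pow]
        refine Finset.sum_congr rfl fun j _ => ?_
        rw [smul_eq_C_mul, map_pow, map_natCast]
        ring
      rw [e1, map_pow, map_pow, map_add, aeval_C, aeval_X, aeval_X, add_comm]
      rfl
    rw [e, ← ht Y, ← ht Y Z c]
    exact hX (Y + Matrix.scalar (Fin n) c) Z
  have h2 := coeff_mem (shifts f b hb)
    (fun j => C (((i.choose j : ℕ) : K)) * X ^ (i - j)) _ h1 (i - 2) (by omega)
  have h3 := (shifts f b hb).smul_mem ((i.choose 2 : ℕ) : K)⁻¹ h2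
  have e : ((i.choose 2 : ℕ) : K)⁻¹ • (C (((i.choose (i - 2) : ℕ) : K)) * X ^ (i - (i - 2))) =
      (X ^ 2 : K[X]) := by
    rw [Nat.choose_symm hi, show i - (i - 2) = 2 by omega, smul_eq_C_mul, ← mul_assoc, ← map_mul,
      inv_mul_cancel₀ hc, map_one, one_mul]
  rw [e] at h3
  exact h3

/-- Invariance under the two transvections gives invariance under `diag(t, 1 / t)`. -/
theorem diag_inv {n : ℕ} (f : FreeAlgebra K (Fin 2))
    (h1 : ∀ (Y Z : Matrix (Fin n) (Fin n) K) (s : K),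
      FreeAlgebra.lift K ![Y + s • Z, Z] f = FreeAlgebra.lift K ![Y, Z] f)
    (h2 : ∀ (Y Z : Matrix (Fin n) (Fin n) K) (s : K),
      FreeAlgebra.lift K ![Y, Z + s • Y] f = FreeAlgebra.lift K ![Y, Z] f)
    (Y Z : Matrix (Fin n) (Fin n) K) (t : K) (ht : t ≠ 0) :
    FreeAlgebra.lift K ![t • Y, t⁻¹ • Z] f = FreeAlgebra.lift K ![Y, Z] f := by
  have hw : ∀ (Y Z : Matrix (Fin n) (Fin n) K) (t : K), t ≠ 0 →
      FreeAlgebra.lift K ![t • Z, -(t⁻¹ • Y)] f = FreeAlgebra.lift K ![Y, Z] f := by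
    intro Y Z t ht
    rw [← h1 Y Z t, ← h2 (Y + t • Z) Z (-t⁻¹)]
    have e1 : Z + -t⁻¹ • (Y + t • Z) = -(t⁻¹ • Y) := by
      rw [smul_add, smul_smul, neg_mul, inv_mul_cancel₀ ht, neg_smul, neg_smul, one_smul]
      abel
    rw [e1, ← h1 (Y + t • Z) (-(t⁻¹ • Y)) t]
    have e2 : Y + t • Z + t • -(t⁻¹ • Y) = t • Z := by
      rw [smul_neg, smul_smul, mul_inv_cancel₀ ht, one_smul]
      abel
    rw [e2]
  have h3 := hw (-Z) Y t ht
  rw [smul_neg, neg_neg] at h3
  rw [h3]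
  have h4 := hw Y Z (-1) (neg_ne_zero.2 one_ne_zero)
  have e3 : (-1 : K)⁻¹ = -1 := by
    rw [inv_neg, inv_one]
  rw [e3, neg_smul, neg_smul, one_smul, one_smul, neg_neg] at h4
  exact h4

end Pool.Agent.H91.PC
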